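import Pool.Agent.H.MP_6b55e5_an.C

set_option autoImplicit false
open Set MeasureTheory

namespace Pool.Agent.Results.MP_6b55e5_an.Yes

theorem result : ∃ E : Set (EuclideanSpace ℝ (Fin 2)), Bornology.IsBounded E ∧ volume E = 0 ∧
    (∀ e : EuclideanSpace ℝ (Fin 2), ‖e‖ = 1 → ∃ p, segment ℝ p (p + e) ⊆ E) ∧
    ∀ ε > 0, ∃ (n : ℕ) (ν : Fin n → EuclideanSpace ℝ (Fin 2)) (c w : Fin n → ℝ),
      (∀ i, ‖ν i‖ = 1 ∧ 0 < w i) ∧ ∑ i, w i < ε ∧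
      E ⊆ ⋃ i, {z | c i ≤ inner ℝ (ν i) z ∧ inner ℝ (ν i) z ≤ c i + w i} := by
  open Pool.Agent.H.MP_6b55e5_an in
  obtain ⟨K, hQ, hK, h⟩ := lim
  exact ⟨_, bdd hQ, measure_iUnion_null fun t => (phi_mp t).quasiMeasurePreserving.preimage_null
    (null (fun z hz => hz.1) h), segs hK, strips h⟩

end Pool.Agent.Results.MP_6b55e5_an.Yes
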